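import Mathlib

/-!
# The `δ'`-interaction on an open arc in the plane: definitions

The plane is `ℝ × ℝ` with its Lebesgue measure. Functions in `L²` are complex valued, test functions
are real valued.
-/

set_option autoImplicit false

namespace Pool.Agent.R552.DP

open MeasureTheory Set

/-- The partial derivative in the first direction. -/
noncomputable def pd1 (φ : ℝ × ℝ → ℝ) (x : ℝ × ℝ) : ℝ := fderiv ℝ φ x (1, 0)

/-- The partial derivative in the second direction. -/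
noncomputable def pd2 (φ : ℝ × ℝ → ℝ) (x : ℝ × ℝ) : ℝ := fderiv ℝ φ x (0, 1)

/-- Test functions on the plane: functions of class `C¹` with compact support. -/
def IsTest (φ : ℝ × ℝ → ℝ) : Prop := ContDiff ℝ 1 φ ∧ HasCompactSupport φ

/-- `γ`, restricted to `[0,1]`, is an injective regular parametrisation of class `C²` (so `γ 0 ≠ γ 1`,
and the curve is not closed). -/
structure IsArc (γ : ℝ → ℝ × ℝ) : Prop where
  contDiff : ContDiff ℝ 2 γ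
  injOn : InjOn γ (Icc 0 1)
  regular : ∀ t ∈ Icc (0 : ℝ) 1, deriv γ t ≠ 0

/-- The arc `Λ = γ([0,1])`. -/
def arc (γ : ℝ → ℝ × ℝ) : Set (ℝ × ℝ) := γ '' Icc 0 1

/-- `u ∈ H¹(ℝ² \ Λ)`, with weak gradient `(v₁, v₂)` on the open set `ℝ² \ Λ`. -/
structure IsH1 (Λ : Set (ℝ × ℝ)) (u v₁ v₂ : ℝ × ℝ → ℂ) : Prop where
  mem : MemLp u 2 volume
  mem₁ : MemLp v₁ 2 volume
  mem₂ : MemLp v₂ 2 volume
  weak₁ : ∀ φ, IsTest φ → Disjoint (tsupport φ) Λ →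
    (∫ x, pd1 φ x • u x) = - (∫ x, φ x • v₁ x)
  weak₂ : ∀ φ, IsTest φ → Disjoint (tsupport φ) Λ →
    (∫ x, pd2 φ x • u x) = - (∫ x, φ x • v₂ x)

/-- `g ∈ L²(Λ)` (as a function of the parameter `t ∈ [0,1]`) is the jump `[u]_Λ` across `Λ` of
`u ∈ H¹(ℝ² \ Λ)` with weak gradient `(v₁, v₂)` on `ℝ² \ Λ`: the Gauss-Green formula
`∫ u ∂ᵢφ + ∫ vᵢ φ = - ∫_Λ [u] φ νᵢ ds` holds for all test functions `φ` on the plane, where
`ν ds = (γ₂', - γ₁') dt`. -/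
structure IsJump (γ : ℝ → ℝ × ℝ) (u v₁ v₂ : ℝ × ℝ → ℂ) (g : ℝ → ℂ) : Prop where
  mem : MemLp g 2 (volume.restrict (Icc 0 1))
  green₁ : ∀ φ, IsTest φ → (∫ x, pd1 φ x • u x) + (∫ x, φ x • v₁ x) =
    - (∫ t in Icc (0 : ℝ) 1, (φ (γ t) * (deriv γ t).2) • g t)
  green₂ : ∀ φ, IsTest φ → (∫ x, pd2 φ x • u x) + (∫ x, φ x • v₂ x) =
    - (∫ t in Icc (0 : ℝ) 1, (φ (γ t) * (- (deriv γ t).1)) • g t)

/-- The length element `|γ'(t)|`. -/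
noncomputable def speed (γ : ℝ → ℝ × ℝ) (t : ℝ) : ℝ :=
  Real.sqrt ((deriv γ t).1 ^ 2 + (deriv γ t).2 ^ 2)

/-- The value `h_ω[u] = ∫ |∇u|² - ω ∫_Λ |[u]_Λ|² ds` of the form for a function `u` with gradient
`(v₁, v₂)` and jump `g`. -/
noncomputable def form (γ : ℝ → ℝ × ℝ) (ω : ℝ) (v₁ v₂ : ℝ × ℝ → ℂ) (g : ℝ → ℂ) : ℝ :=
  (∫ x, (‖v₁ x‖ ^ 2 + ‖v₂ x‖ ^ 2)) - ω * (∫ t in Icc (0 : ℝ) 1, ‖g t‖ ^ 2 * speed γ t)

end Pool.Agent.R552.DP
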