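import Mathlib

set_option autoImplicit false
set_option maxHeartbeats 400000

namespace Pool.Agent.R552.DP

open MeasureTheory Set Topology
open scoped ContDiff ENNReal NNReal InnerProductSpace

/-- smooth functions with compact support in `(0,1)` -/
def Tst (ψ : ℝ → ℝ) : Prop := ContDiff ℝ ∞ ψ ∧ HasCompactSupport ψ ∧ tsupport ψ ⊆ Ioo 0 1

theorem Tst.zero : Tst 0 := by
  refine ⟨contDiff_const, HasCompactSupport.zero, ?_⟩
  simp [tsupport]

theorem Tst.add {f g : ℝ → ℝ} (hf : Tst f) (hg : Tst g) : Tst (f + g) := by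
  refine ⟨hf.1.add hg.1, hf.2.1.add hg.2.1, ?_⟩
  exact (tsupport_add f g).trans (union_subset hf.2.2 hg.2.2)

theorem Tst.smul {f : ℝ → ℝ} (c : ℝ) (hf : Tst f) : Tst (c • f) := by
  refine ⟨hf.1.const_smul c, hf.2.1.smul_left (f := fun _ => c), ?_⟩
  exact (tsupport_smul_subset_right (fun _ => c) f).trans hf.2.2

theorem Tst.memLp {f : ℝ → ℝ} (hf : Tst f) (μ : Measure ℝ) [IsLocallyFiniteMeasure μ] :
    MemLp f 2 μ :=
  hf.1.continuous.memLp_of_hasCompactSupport hf.2.1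

/-- classes of test functions -/
def DD (μ : Measure ℝ) : Submodule ℝ (Lp ℝ 2 μ) where
  carrier := {w | ∃ ψ, Tst ψ ∧ w =ᵐ[μ] ψ}
  zero_mem' := ⟨0, Tst.zero, Lp.coeFn_zero _ _ _⟩
  add_mem' := by
    rintro w w' ⟨ψ, hψ, h⟩ ⟨ψ', hψ', h'⟩
    refine ⟨ψ + ψ', hψ.add hψ', (Lp.coeFn_add w w').trans ?_⟩
    exact h.add h'
  smul_mem' := by
    rintro c w ⟨ψ, hψ, h⟩
    refine ⟨c • ψ, hψ.smul c, (Lp.coeFn_smul c w).trans ?_⟩
    exact h.const_smul c

theorem DD_dense : (DD (volume.restrict (Ioo (0:ℝ) 1))).topologicalClosure = ⊤ := by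
  set μ := volume.restrict (Ioo (0:ℝ) 1) with hμ
  rw [Submodule.topologicalClosure_eq_top_iff, Submodule.eq_bot_iff]
  intro w hw
  rw [Submodule.mem_orthogonal] at hw
  have hint : Integrable (w : ℝ → ℝ) μ := (Lp.memLp w).integrable (by norm_num)
  have key : ∀ᵐ x ∂(volume : Measure ℝ), x ∈ Ioo (0:ℝ) 1 → w x = 0 := by
    refine isOpen_Ioo.ae_eq_zero_of_integral_contDiff_smul_eq_zero ?_ ?_
    · exact IntegrableOn.locallyIntegrableOn hint
    · intro g hg hgc hgs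
      have ht : Tst g := ⟨hg, hgc, hgs⟩
      have hm : MemLp g 2 μ := ht.memLp μ
      have h1 := hw (hm.toLp g) ⟨g, ht, hm.coeFn_toLp⟩
      rw [L2.inner_def] at h1
      have h2 : ∫ x, g x • w x ∂μ = 0 := by
        rw [← h1]
        apply integral_congr_ae
        filter_upwards [hm.coeFn_toLp] with x hx
        rw [hx]
        simp [mul_comm]
      have h3 : ∫ x, g x • w x = ∫ x in Ioo (0:ℝ) 1, g x • w x := by
        symm
        apply setIntegral_eq_integral_of_forall_compl_eq_zero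
        intro x hx
        have : g x = 0 := by
          by_contra hne
          exact hx (hgs (subset_tsupport g hne))
        simp [this]
      rw [h3]
      exact h2
  rw [Lp.eq_zero_iff_ae_eq_zero]
  rw [← ae_restrict_iff' measurableSet_Ioo] at key
  exact key

theorem le_of_test {G : ℝ → ℝ} (hG : MemLp G 2 (volume.restrict (Ioo (0:ℝ) 1))) {M : ℝ}
    (hM : 0 ≤ M)
    (h : ∀ ψ, Tst ψ → |∫ t in Ioo (0:ℝ) 1, ψ t * G t| ≤
      M * Real.sqrt (∫ t in Ioo (0:ℝ) 1, ψ t ^ 2)) :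
    ∫ t in Ioo (0:ℝ) 1, G t ^ 2 ≤ M ^ 2 := by
  set μ := volume.restrict (Ioo (0:ℝ) 1) with hμ
  let Γ : Lp ℝ 2 μ := hG.toLp G
  have hclosed : IsClosed {w : Lp ℝ 2 μ | |⟪w, Γ⟫_ℝ| ≤ M * ‖w‖} := by
    apply isClosed_le
    · fun_prop
    · fun_prop
  have hsub : (DD μ : Set (Lp ℝ 2 μ)) ⊆ {w : Lp ℝ 2 μ | |⟪w, Γ⟫_ℝ| ≤ M * ‖w‖} := by
    rintro w ⟨ψ, hψ, hw⟩
    have h1 : ⟪w, Γ⟫_ℝ = ∫ t in Ioo (0:ℝ) 1, ψ t * G t := by
      rw [L2.inner_def]
      apply integral_congr_ae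
      filter_upwards [hw, hG.coeFn_toLp] with x hx hx2
      rw [hx2, hx]
      simp [mul_comm]
    have h2 : ‖w‖ = Real.sqrt (∫ t in Ioo (0:ℝ) 1, ψ t ^ 2) := by
      rw [← Real.sqrt_sq (norm_nonneg w)]
      congr 1
      rw [← real_inner_self_eq_norm_sq, L2.inner_def]
      apply integral_congr_ae
      filter_upwards [hw] with x hx
      rw [hx]
      simp [sq]
    simp only [mem_setOf_eq]
    rw [h1, h2]
    exact h ψ hψ
  have hall : Γ ∈ {w : Lp ℝ 2 μ | |⟪w, Γ⟫_ℝ| ≤ M * ‖w‖} := by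
    have : Γ ∈ (DD μ).topologicalClosure := by rw [DD_dense]; trivial
    exact closure_minimal hsub hclosed this
  simp only [mem_setOf_eq] at hall
  rw [real_inner_self_eq_norm_sq, abs_of_nonneg (by positivity)] at hall
  have hn : ‖Γ‖ ≤ M := by
    by_contra hcon
    push Not at hcon
    nlinarith [norm_nonneg Γ]
  have h3 : ∫ t in Ioo (0:ℝ) 1, G t ^ 2 = ‖Γ‖ ^ 2 := by
    rw [← real_inner_self_eq_norm_sq, L2.inner_def]
    apply integral_congr_ae
    filter_upwards [hG.coeFn_toLp] with x hx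
    rw [hx]
    simp [sq]
  rw [h3]
  gcongr

end Pool.Agent.R552.DP
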