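import Pool.Agent.R552.DP.Defs

set_option autoImplicit false
set_option maxHeartbeats 400000

namespace Pool.Agent.R552.DP

open MeasureTheory Set Topology
open scoped ContDiff ENNReal NNReal

theorem hasDerivAt_pd1 {σ : ℝ × ℝ → ℝ} (hσ : Differentiable ℝ σ) (s y : ℝ) :
    HasDerivAt (fun s => σ (s, y)) (pd1 σ (s, y)) s := by
  have h1 : HasFDerivAt σ (fderiv ℝ σ (s, y)) (s, y) := (hσ (s, y)).hasFDerivAt
  have h2 : HasDerivAt (fun s : ℝ => ((s, y) : ℝ × ℝ)) (1, 0) s :=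
    (hasDerivAt_id s).prodMk (hasDerivAt_const s y)
  exact h1.comp_hasDerivAt s h2

theorem hasDerivAt_pd2 {σ : ℝ × ℝ → ℝ} (hσ : Differentiable ℝ σ) (s y : ℝ) :
    HasDerivAt (fun y => σ (s, y)) (pd2 σ (s, y)) y := by
  have h1 : HasFDerivAt σ (fderiv ℝ σ (s, y)) (s, y) := (hσ (s, y)).hasFDerivAt
  have h2 : HasDerivAt (fun y : ℝ => ((s, y) : ℝ × ℝ)) (0, 1) y :=
    (hasDerivAt_const y s).prodMk (hasDerivAt_id y)
  exact h1.comp_hasDerivAt y h2

theorem continuous_pd1 {σ : ℝ × ℝ → ℝ} (hσ : ContDiff ℝ 1 σ) : Continuous (pd1 σ) := by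
  have := hσ.continuous_fderiv (by norm_num)
  exact this.clm_apply continuous_const

theorem continuous_pd2 {σ : ℝ × ℝ → ℝ} (hσ : ContDiff ℝ 1 σ) : Continuous (pd2 σ) := by
  have := hσ.continuous_fderiv (by norm_num)
  exact this.clm_apply continuous_const

/-- one-dimensional estimate -/
theorem push_line {f f' : ℝ → ℝ} {I : Set ℝ} (hI : MeasurableSet I) (hIc : I.OrdConnected)
    (hf : ∀ s ∈ I, HasDerivAt f (f' s) s) {c : ℝ} (hc : 0 < c) (hfc : ∀ s ∈ I, c ≤ |f' s|)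
    (G : ℝ → ℝ≥0∞) (hG : Measurable G) :
    ∫⁻ s in I, G (f s) ≤ ENNReal.ofReal c⁻¹ * ∫⁻ s, G s := by
  have hinj : InjOn f I := by
    intro s hs s' hs' he
    by_contra hne
    wlog hlt : s < s' generalizing s s'
    · exact this hs' hs he.symm (Ne.symm hne) (lt_of_le_of_ne (not_lt.1 hlt) (Ne.symm hne))
    have hsub : Icc s s' ⊆ I := hIc.out hs hs'
    obtain ⟨z, hz, hz0⟩ := exists_deriv_eq_zero hlt
      (fun z hz => (hf z (hsub hz)).continuousAt.continuousWithinAt) he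
    have h1 := hf z (hsub (Ioo_subset_Icc_self hz))
    rw [h1.deriv] at hz0
    have := hfc z (hsub (Ioo_subset_Icc_self hz))
    rw [hz0, abs_zero] at this
    linarith
  have key := lintegral_image_eq_lintegral_abs_deriv_mul hI
    (fun s hs => (hf s hs).hasDerivWithinAt) hinj G
  have hfm : ∫⁻ s in I, G (f s) ≤
      ENNReal.ofReal c⁻¹ * ∫⁻ s in I, ENNReal.ofReal (|f' s|) * G (f s) := by
    rw [← lintegral_const_mul' _ _ ENNReal.ofReal_ne_top]
    apply setLIntegral_mono' hI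
    intro s hs
    rw [← mul_assoc, ← ENNReal.ofReal_mul (by positivity)]
    have h1 : (1 : ℝ≥0∞) ≤ ENNReal.ofReal (c⁻¹ * |f' s|) := by
      rw [← ENNReal.ofReal_one]
      apply ENNReal.ofReal_le_ofReal
      have := hfc s hs
      calc (1:ℝ) = c⁻¹ * c := by field_simp
        _ ≤ c⁻¹ * |f' s| := by gcongr
    calc G (f s) = 1 * G (f s) := (one_mul _).symm
      _ ≤ _ := by gcongr
  refine hfm.trans ?_
  rw [← key]
  gcongr
  exact Measure.restrict_le_self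

theorem push_local1 {σ : ℝ × ℝ → ℝ} (hσ : ContDiff ℝ 2 σ) {x : ℝ × ℝ} (hx : pd1 σ x ≠ 0) :
    ∃ U ∈ 𝓝 x, ∃ C : ℝ≥0, ∀ G : ℝ → ℝ≥0∞, Measurable G →
      ∫⁻ x in U, G (σ x) ≤ C * ∫⁻ s, G s := by
  have hσ1 : ContDiff ℝ 1 σ := hσ.of_le (by norm_num)
  have hcont := continuous_pd1 hσ1
  set c : ℝ := |pd1 σ x| / 2 with hc
  have hc0 : 0 < c := by have := abs_pos.2 hx; positivity
  obtain ⟨ε, hε, hball⟩ := Metric.continuousAt_iff.1 hcont.continuousAt c hc0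
  have hbd : ∀ s ∈ Ioo (x.1 - ε) (x.1 + ε), ∀ y ∈ Ioo (x.2 - ε) (x.2 + ε), c ≤ |pd1 σ (s, y)| := by
    intro s hs y hy
    have h1 : dist ((s, y) : ℝ × ℝ) x < ε := by
      rw [Prod.dist_eq, max_lt_iff, Real.dist_eq, Real.dist_eq, abs_lt, abs_lt]
      refine ⟨⟨?_, ?_⟩, ⟨?_, ?_⟩⟩ <;> simp only [mem_Ioo] at hs hy <;> linarith [hs.1, hs.2, hy.1, hy.2]
    have h2 := hball h1
    rw [Real.dist_eq] at h2
    have h3 : |pd1 σ x| - |pd1 σ (s, y)| ≤ |pd1 σ x - pd1 σ (s, y)| := abs_sub_abs_le_abs_sub _ _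
    rw [abs_sub_comm] at h3
    have : |pd1 σ x| = 2 * c := by rw [hc]; ring
    linarith
  refine ⟨Ioo (x.1 - ε) (x.1 + ε) ×ˢ Ioo (x.2 - ε) (x.2 + ε), ?_,
    Real.toNNReal (c⁻¹ * (2 * ε)), ?_⟩
  · apply prod_mem_nhds
    · exact Ioo_mem_nhds (by linarith) (by linarith)
    · exact Ioo_mem_nhds (by linarith) (by linarith)
  · intro G hG
    have hm : Measurable (fun z : ℝ × ℝ => G (σ z)) := hG.comp hσ.continuous.measurable
    rw [Measure.volume_eq_prod, ← Measure.prod_restrict, lintegral_prod_symm _ hm.aemeasurable]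
    calc ∫⁻ y in Ioo (x.2 - ε) (x.2 + ε), ∫⁻ s in Ioo (x.1 - ε) (x.1 + ε), G (σ (s, y))
        ≤ ∫⁻ y in Ioo (x.2 - ε) (x.2 + ε), ENNReal.ofReal c⁻¹ * ∫⁻ s, G s := by
          apply setLIntegral_mono' measurableSet_Ioo
          intro y hy
          exact push_line measurableSet_Ioo ordConnected_Ioo
            (fun s _ => hasDerivAt_pd1 (hσ.differentiable (by norm_num)) s y) hc0
            (fun s hs => hbd s hs y hy) G hG
      _ = _ := by
          rw [lintegral_const, Measure.restrict_apply_univ, Real.volume_Ioo]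
          have : x.2 + ε - (x.2 - ε) = 2 * ε := by ring
          rw [this]
          have e2 : ((Real.toNNReal (c⁻¹ * (2 * ε)) : ℝ≥0) : ℝ≥0∞) =
            ENNReal.ofReal c⁻¹ * ENNReal.ofReal (2 * ε) := by
            rw [← ENNReal.ofReal_mul (by positivity)]; rfl
          rw [e2]
          ring

theorem push_local {σ : ℝ × ℝ → ℝ} (hσ : ContDiff ℝ 2 σ) {x : ℝ × ℝ} (hx : fderiv ℝ σ x ≠ 0) :
    ∃ U ∈ 𝓝 x, ∃ C : ℝ≥0, ∀ G : ℝ → ℝ≥0∞, Measurable G →
      ∫⁻ x in U, G (σ x) ≤ C * ∫⁻ s, G s := by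
  by_cases h1 : pd1 σ x = 0
  swap
  · exact push_local1 hσ h1
  by_cases h2 : pd2 σ x = 0
  · exfalso
    apply hx
    ext
    · simpa [pd1] using h1
    · simpa [pd2] using h2
  -- swap coordinates
  have hsw : ContDiff ℝ 2 (σ ∘ Prod.swap) := hσ.comp (contDiff_snd.prodMk contDiff_fst)
  have e : pd1 (σ ∘ Prod.swap) x.swap = pd2 σ x := by
    have a := (hasDerivAt_pd1 (hsw.differentiable (by norm_num)) x.2 x.1).deriv
    have b := (hasDerivAt_pd2 (hσ.differentiable (by norm_num)) x.1 x.2).deriv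
    have : (fun s => (σ ∘ Prod.swap) (s, x.1)) = fun y => σ (x.1, y) := rfl
    rw [this, b] at a
    exact a.symm
  obtain ⟨U, hU, C, hC⟩ := push_local1 hsw (x := x.swap) (by rw [e]; exact h2)
  refine ⟨Prod.swap ⁻¹' U, continuous_swap.continuousAt.preimage_mem_nhds hU, C, ?_⟩
  intro G hG
  have hmp : MeasurePreserving (Prod.swap : ℝ × ℝ → ℝ × ℝ) volume volume :=
    Measure.measurePreserving_swap
  have h3 := hC G hG
  have h4 : ∫⁻ z in U, G ((σ ∘ Prod.swap) z) = ∫⁻ z in Prod.swap ⁻¹' U, G (σ z) := by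
    have := hmp.setLIntegral_comp_preimage_emb MeasurableEquiv.prodComm.measurableEmbedding
      (fun z => G ((σ ∘ Prod.swap) z)) U
    rw [← this]
    simp [Function.comp_def]
  rw [← h4]
  exact h3

theorem push {σ : ℝ × ℝ → ℝ} (hσ : ContDiff ℝ 2 σ) {K : Set (ℝ × ℝ)} (hK : IsCompact K)
    (h : ∀ x ∈ K, fderiv ℝ σ x ≠ 0) :
    ∃ C : ℝ≥0, ∀ G : ℝ → ℝ≥0∞, Measurable G → ∫⁻ x in K, G (σ x) ≤ C * ∫⁻ s, G s := by
  refine hK.induction_on (p := fun S => ∃ C : ℝ≥0, ∀ G : ℝ → ℝ≥0∞, Measurable G →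
    ∫⁻ x in S, G (σ x) ≤ C * ∫⁻ s, G s) ?_ ?_ ?_ ?_
  · exact ⟨0, fun G _ => by simp⟩
  · rintro s t hst ⟨C, hC⟩
    exact ⟨C, fun G hG => (lintegral_mono_set hst).trans (hC G hG)⟩
  · rintro s t ⟨C, hC⟩ ⟨D, hD⟩
    refine ⟨C + D, fun G hG => (lintegral_union_le _ _ _).trans ?_⟩
    rw [ENNReal.coe_add, add_mul]
    exact add_le_add (hC G hG) (hD G hG)
  · intro x hx
    obtain ⟨U, hU, hC⟩ := push_local hσ (h x hx)
    exact ⟨U, mem_nhdsWithin_of_mem_nhds hU, hC⟩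

end Pool.Agent.R552.DP
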