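import Pool.Agent.R552.DP.Sig
import Pool.Agent.R552.DP.Push
import Pool.Agent.R552.DP.Dens

set_option autoImplicit false
set_option maxHeartbeats 400000

namespace Pool.Agent.R552.DP

open MeasureTheory Set Topology Manifold
open scoped ContDiff ENNReal NNReal

/-- `σ ∘ γ` has derivative one on `[0,1]` -/
theorem fderiv_sigma_gamma {γ : ℝ → ℝ × ℝ} (h : IsArc γ) {σ : ℝ × ℝ → ℝ} (hσ : ContDiff ℝ 2 σ)
    (hs : ∀ t ∈ Icc (0:ℝ) 1, σ (γ t) = t) (t : ℝ) (ht : t ∈ Icc (0:ℝ) 1) :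
    fderiv ℝ σ (γ t) (deriv γ t) = 1 := by
  have h1 : HasDerivAt γ (deriv γ t) t := (h.contDiff.differentiable (by norm_num) t).hasDerivAt
  have h2 : HasFDerivAt σ (fderiv ℝ σ (γ t)) (γ t) :=
    (hσ.differentiable (by norm_num) (γ t)).hasFDerivAt
  have h3 : HasDerivAt (fun s => σ (γ s)) (fderiv ℝ σ (γ t) (deriv γ t)) t :=
    h2.comp_hasDerivAt t h1
  have h4 : HasDerivWithinAt (fun s => σ (γ s)) 1 (Icc 0 1) t := by
    have : HasDerivWithinAt (fun s : ℝ => s) 1 (Icc 0 1) t := hasDerivWithinAt_id t _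
    exact this.congr (fun s hs' => hs s hs') (hs t ht)
  exact (uniqueDiffOn_Icc (by norm_num : (0:ℝ) < 1) t ht).eq_deriv _ h3.hasDerivWithinAt h4

theorem apply_pair (L : ℝ × ℝ →L[ℝ] ℝ) (v : ℝ × ℝ) : L v = L (1, 0) * v.1 + L (0, 1) * v.2 := by
  have : v = v.1 • (1, 0) + v.2 • (0, 1) := by
    ext <;> simp
  conv_lhs => rw [this, map_add, map_smul, map_smul]
  simp [mul_comm]

/-- cutoff function -/
theorem exists_cutoff {Λ U : Set (ℝ × ℝ)} (hΛ : IsCompact Λ) (hU : IsOpen U) (hΛU : Λ ⊆ U) :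
    ∃ (K : Set (ℝ × ℝ)) (χ : ℝ × ℝ → ℝ), IsCompact K ∧ K ⊆ U ∧ ContDiff ℝ 2 χ ∧
      (∀ x, x ∉ K → χ x = 0) ∧ tsupport χ ⊆ K ∧ (∀ x ∈ Λ, χ x = 1) := by
  obtain ⟨K, hK, hΛK, hKU⟩ := exists_compact_between hΛ hU hΛU
  obtain ⟨f, hf0, hf1, -⟩ := exists_contMDiffMap_zero_one_of_isClosed (n := 2) 𝓘(ℝ, ℝ × ℝ)
    (s := (interior K)ᶜ) (t := Λ) isOpen_interior.isClosed_compl hΛ.isClosed
    (by rw [Set.disjoint_left]; intro x hx hx2; exact hx (hΛK hx2))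
  have h0 : ∀ x, x ∉ K → f x = 0 := fun x hx => hf0 (fun hx2 => hx (interior_subset hx2))
  refine ⟨K, f, hK, hKU, f.contMDiff.contDiff, h0, ?_, fun x hx => hf1 hx⟩
  apply closure_minimal _ hK.isClosed
  intro x hx
  by_contra hcon
  exact hx (h0 x hcon)

theorem pd1_eq_zero {Φ : ℝ × ℝ → ℝ} {x : ℝ × ℝ} (hx : x ∉ tsupport Φ) : pd1 Φ x = 0 := by
  have : fderiv ℝ Φ x = 0 := by
    by_contra hne
    exact hx (support_fderiv_subset ℝ (f := Φ) hne)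
  simp [pd1, this]

theorem pd2_eq_zero {Φ : ℝ × ℝ → ℝ} {x : ℝ × ℝ} (hx : x ∉ tsupport Φ) : pd2 Φ x = 0 := by
  have : fderiv ℝ Φ x = 0 := by
    by_contra hne
    exact hx (support_fderiv_subset ℝ (f := Φ) hne)
  simp [pd2, this]

/-- primitive -/
noncomputable def prim (ψ : ℝ → ℝ) (s : ℝ) : ℝ := ∫ t in (0:ℝ)..s, ψ t

theorem prim_deriv {ψ : ℝ → ℝ} (hcont : Continuous ψ) (s : ℝ) : HasDerivAt (prim ψ) (ψ s) s :=
  intervalIntegral.integral_hasDerivAt_right (hcont.intervalIntegrable _ _)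
      (hcont.stronglyMeasurableAtFilter _ _) hcont.continuousAt

theorem prim_contDiff {ψ : ℝ → ℝ} (hψ : ContDiff ℝ 1 ψ) : ContDiff ℝ 2 (prim ψ) := by
  have hd := prim_deriv hψ.continuous
  have h12 : (2 : WithTop ℕ∞) = 1 + 1 := by norm_num
  rw [h12, contDiff_succ_iff_deriv]
  refine ⟨fun s => (hd s).differentiableAt, fun h => absurd h (by simp), ?_⟩
  have : deriv (prim ψ) = ψ := funext fun s => (hd s).deriv
  rw [this]
  exact hψ

theorem sq_integral_le {f : ℝ → ℝ} (i1 : IntegrableOn f (Ioo (0:ℝ) 1))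
    (i2 : IntegrableOn (fun t => f t ^ 2) (Ioo (0:ℝ) 1)) :
    (∫ t in Ioo (0:ℝ) 1, f t) ^ 2 ≤ ∫ t in Ioo (0:ℝ) 1, f t ^ 2 := by
  generalize hm : (∫ t in Ioo (0:ℝ) 1, f t) = m
  have h3 : 0 ≤ ∫ t in Ioo (0:ℝ) 1, (f t - m) ^ 2 := integral_nonneg fun t => sq_nonneg _
  have i3 : IntegrableOn (fun t => 2 * m * f t) (Ioo (0:ℝ) 1) := i1.const_mul _
  have i4 : IntegrableOn (fun _ : ℝ => m ^ 2) (Ioo (0:ℝ) 1) := integrableOn_const (by simp)
  have i5 : Integrable (fun t => f t ^ 2 - 2 * m * f t) (volume.restrict (Ioo (0:ℝ) 1)) :=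
    Integrable.sub i2 i3
  have h4 : ∫ t in Ioo (0:ℝ) 1, (f t - m) ^ 2 =
      (∫ t in Ioo (0:ℝ) 1, f t ^ 2) - 2 * m * m + m ^ 2 := by
    have e : ∀ t, (f t - m) ^ 2 = (f t ^ 2 - 2 * m * f t) + m ^ 2 := fun t => by ring
    calc ∫ t in Ioo (0:ℝ) 1, (f t - m) ^ 2 = ∫ t in Ioo (0:ℝ) 1, ((f t ^ 2 - 2 * m * f t) + m ^ 2) := by
          simp_rw [e]
      _ = (∫ t in Ioo (0:ℝ) 1, (f t ^ 2 - 2 * m * f t)) + ∫ t in Ioo (0:ℝ) 1, m ^ 2 :=
          integral_add i5 i4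
      _ = _ := by
          rw [integral_sub i2 i3, integral_const_mul, hm]
          simp
  rw [h4] at h3
  nlinarith

theorem pb1 {ψ : ℝ → ℝ} (hi1 : Integrable (fun t => ‖ψ t‖))
    (hz : ∀ t, t ∉ Ioo (0:ℝ) 1 → ψ t = 0) (s : ℝ) :
    ‖∫ t in (0:ℝ)..s, ψ t‖ ≤ ∫ t in Ioo (0:ℝ) 1, ‖ψ t‖ := by
  have e1 : ∫ t in Ioo (0:ℝ) 1, ‖ψ t‖ = ∫ t, ‖ψ t‖ := by
    apply setIntegral_eq_integral_of_forall_compl_eq_zero
    intro t ht; rw [hz t ht, norm_zero]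
  rw [e1]
  have e2 : ‖∫ t in (0:ℝ)..s, ψ t‖ ≤ ∫ t in Set.uIoc 0 s, ‖ψ t‖ :=
    intervalIntegral.norm_integral_le_integral_norm_uIoc
  exact e2.trans (setIntegral_le_integral hi1 (Filter.Eventually.of_forall fun t => norm_nonneg _))

theorem pb2 {ψ : ℝ → ℝ} (hi1 : Integrable (fun t => ‖ψ t‖)) (hi2 : Integrable (fun t => ψ t ^ 2))
    (hz : ∀ t, t ∉ Ioo (0:ℝ) 1 → ψ t = 0) :
    (∫ t in Ioo (0:ℝ) 1, ‖ψ t‖) ^ 2 ≤ ∫ t, ψ t ^ 2 := by
  have e3 : ∀ t, ‖ψ t‖ ^ 2 = ψ t ^ 2 := fun t => by rw [Real.norm_eq_abs, sq_abs]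
  have e2 : ∫ t, ψ t ^ 2 = ∫ t in Ioo (0:ℝ) 1, ‖ψ t‖ ^ 2 := by
    simp_rw [e3]
    symm
    apply setIntegral_eq_integral_of_forall_compl_eq_zero
    intro t ht; rw [hz t ht]; norm_num
  rw [e2]
  refine sq_integral_le hi1.integrableOn ?_
  simp_rw [e3]
  exact hi2.integrableOn

theorem pb3 {ψ : ℝ → ℝ} (hcont : Continuous ψ) (hc : HasCompactSupport ψ) :
    Integrable (fun t => ‖ψ t‖) :=
  (hcont.integrable_of_hasCompactSupport hc).norm

theorem pb4 {ψ : ℝ → ℝ} (hs : tsupport ψ ⊆ Ioo 0 1) : ∀ t, t ∉ Ioo (0:ℝ) 1 → ψ t = 0 := by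
  intro t ht
  by_contra hne
  exact ht (hs (subset_tsupport ψ hne))

theorem pb5 {ψ : ℝ → ℝ} (hcont : Continuous ψ) (hc : HasCompactSupport ψ) :
    Integrable (fun t => ψ t ^ 2) :=
  (hcont.memLp_of_hasCompactSupport hc).integrable_sq

theorem prim_bound {ψ : ℝ → ℝ} (hcont : Continuous ψ) (hc : HasCompactSupport ψ)
    (hs : tsupport ψ ⊆ Ioo 0 1) (s : ℝ) : prim ψ s ^ 2 ≤ ∫ t, ψ t ^ 2 := by
  have hz := pb4 hs
  have h1 := pb1 (pb3 hcont hc) hz s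
  have h2 := pb2 (pb3 hcont hc) (pb5 hcont hc) hz
  have h3 := pow_le_pow_left₀ (norm_nonneg _) h1 2
  rw [Real.norm_eq_abs, sq_abs] at h3
  exact h3.trans h2

theorem exists_ext {γ : ℝ → ℝ × ℝ} (h : IsArc γ) :
    ∃ C : ℝ, 0 < C ∧ ∀ ψ : ℝ → ℝ, ContDiff ℝ 1 ψ → HasCompactSupport ψ → tsupport ψ ⊆ Ioo 0 1 →
      ∃ Φ : ℝ × ℝ → ℝ, ContDiff ℝ 2 Φ ∧ HasCompactSupport Φ ∧
        (∀ t ∈ Icc (0:ℝ) 1, pd1 Φ (γ t) * (deriv γ t).1 + pd2 Φ (γ t) * (deriv γ t).2 = ψ t) ∧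
        ∫ x, (pd1 Φ x ^ 2 + pd2 Φ x ^ 2) ≤ C * ∫ t, ψ t ^ 2 := by
  obtain ⟨σ, hσ, hσγ⟩ := exists_sigma h
  have hσ1 : ContDiff ℝ 1 σ := hσ.of_le (by norm_num)
  have hΛ : IsCompact (arc γ) := isCompact_Icc.image h.contDiff.continuous
  have hU : IsOpen {x | fderiv ℝ σ x ≠ 0} := by
    have : Continuous (fderiv ℝ σ) := hσ.continuous_fderiv (by norm_num)
    exact isOpen_ne_fun this continuous_const
  have hΛU : arc γ ⊆ {x | fderiv ℝ σ x ≠ 0} := by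
    rintro _ ⟨t, ht, rfl⟩ h0
    have := fderiv_sigma_gamma h hσ hσγ t ht
    rw [h0] at this
    simp at this
  obtain ⟨K, χ, hK, hKU, hχ, hχ0, hχs, hχ1⟩ := exists_cutoff hΛ hU hΛU
  have hχc : ContDiff ℝ 1 χ := hχ.of_le (by norm_num)
  obtain ⟨C₁, hC₁⟩ := push hσ hK (fun x hx => hKU hx)
  -- bounds
  have hb : ∀ f : ℝ × ℝ → ℝ, Continuous f → ∃ A : ℝ, 0 ≤ A ∧ ∀ x ∈ K, f x ^ 2 ≤ A := by
    intro f hf
    obtain ⟨A, hA⟩ := hK.bddAbove_image (f := fun x => f x ^ 2) (hf.pow 2).continuousOn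
    refine ⟨max A 0, le_max_right _ _, fun x hx => (hA ⟨x, hx, rfl⟩).trans (le_max_left _ _)⟩
  obtain ⟨A₀, hA₀, hA₀'⟩ := hb χ hχ.continuous
  obtain ⟨A₁, hA₁, hA₁'⟩ := hb (pd1 χ) (continuous_pd1 hχc)
  obtain ⟨A₂, hA₂, hA₂'⟩ := hb (pd2 χ) (continuous_pd2 hχc)
  obtain ⟨B₁, hB₁, hB₁'⟩ := hb (pd1 σ) (continuous_pd1 hσ1)
  obtain ⟨B₂, hB₂, hB₂'⟩ := hb (pd2 σ) (continuous_pd2 hσ1)
  set P : ℝ := 2 * (A₁ + A₂) with hP
  set Q : ℝ := 2 * A₀ * (B₁ + B₂) with hQ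
  have hP0 : 0 ≤ P := by positivity
  have hQ0 : 0 ≤ Q := by positivity
  have hKfin : volume K ≠ (⊤ : ℝ≥0∞) := hK.measure_lt_top.ne
  refine ⟨P * (volume K).toReal + Q * C₁ + 1, by positivity, ?_⟩
  intro ψ hψ hψc hψs
  have hF := prim_contDiff hψ
  have hFd := prim_deriv hψ.continuous
  have hFb := prim_bound hψ.continuous hψc hψs
  generalize prim ψ = F at hF hFd hFb
  set S : ℝ := ∫ t, ψ t ^ 2 with hS
  have hS0 : 0 ≤ S := integral_nonneg fun t => sq_nonneg _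
  let Φ : ℝ × ℝ → ℝ := fun x => χ x * F (σ x)
  have hFσ : ContDiff ℝ 2 (fun x => F (σ x)) := hF.comp hσ
  have hΦ : ContDiff ℝ 2 Φ := hχ.mul hFσ
  have hΦs : tsupport Φ ⊆ K := by
    apply closure_minimal _ hK.isClosed
    intro x hx
    by_contra hcon
    apply hx
    simp [Φ, hχ0 x hcon]
  have hΦc : HasCompactSupport Φ := hK.of_isClosed_subset (isClosed_tsupport _) hΦs
  have hfd : ∀ x v, fderiv ℝ Φ x v = fderiv ℝ χ x v * F (σ x) + χ x * (ψ (σ x) * fderiv ℝ σ x v) := by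
    intro x v
    have a : HasFDerivAt χ (fderiv ℝ χ x) x := (hχ.differentiable (by norm_num) x).hasFDerivAt
    have b : HasFDerivAt σ (fderiv ℝ σ x) x := (hσ.differentiable (by norm_num) x).hasFDerivAt
    have c : HasFDerivAt (fun x => F (σ x)) (ψ (σ x) • fderiv ℝ σ x) x :=
      (hFd (σ x)).comp_hasFDerivAt x b
    have d := (a.mul c).fderiv
    change fderiv ℝ (fun x => χ x * F (σ x)) x v = _
    have d' : fderiv ℝ (fun x => χ x * F (σ x)) x = χ x • ψ (σ x) • fderiv ℝ σ x + F (σ x) • fderiv ℝ χ x := d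
    rw [d']
    simp
    ring
  refine ⟨Φ, hΦ, hΦc, ?_, ?_⟩
  · intro t ht
    have e1 : pd1 Φ (γ t) * (deriv γ t).1 + pd2 Φ (γ t) * (deriv γ t).2 =
        fderiv ℝ Φ (γ t) (deriv γ t) := (apply_pair _ _).symm
    rw [e1, hfd, hσγ t ht, fderiv_sigma_gamma h hσ hσγ t ht, hχ1 (γ t) ⟨t, ht, rfl⟩]
    -- derivative of `χ` along `γ` vanishes
    have h5 : fderiv ℝ χ (γ t) (deriv γ t) = 0 := by
      have h1 : HasDerivAt γ (deriv γ t) t := (h.contDiff.differentiable (by norm_num) t).hasDerivAt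
      have h2 : HasFDerivAt χ (fderiv ℝ χ (γ t)) (γ t) :=
        (hχ.differentiable (by norm_num) (γ t)).hasFDerivAt
      have h3 : HasDerivAt (fun s => χ (γ s)) (fderiv ℝ χ (γ t) (deriv γ t)) t :=
        h2.comp_hasDerivAt t h1
      have h4 : HasDerivWithinAt (fun s => χ (γ s)) 0 (Icc 0 1) t := by
        have : HasDerivWithinAt (fun _ : ℝ => (1:ℝ)) 0 (Icc 0 1) t := hasDerivWithinAt_const _ _ _
        exact this.congr (fun s hs' => hχ1 _ ⟨s, hs', rfl⟩) (hχ1 _ ⟨t, ht, rfl⟩)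
      exact (uniqueDiffOn_Icc (by norm_num : (0:ℝ) < 1) t ht).eq_deriv _ h3.hasDerivWithinAt h4
    rw [h5]
    ring
  · -- the estimate
    have hpt : ∀ x, pd1 Φ x ^ 2 + pd2 Φ x ^ 2 ≤ K.indicator (fun x => P * S + Q * ψ (σ x) ^ 2) x := by
      intro x
      by_cases hx : x ∈ K
      · rw [indicator_of_mem hx]
        have a1 : pd1 Φ x = pd1 χ x * F (σ x) + χ x * (ψ (σ x) * pd1 σ x) := hfd x (1, 0)
        have a2 : pd2 Φ x = pd2 χ x * F (σ x) + χ x * (ψ (σ x) * pd2 σ x) := hfd x (0, 1)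
        have b1 : pd1 Φ x ^ 2 ≤ 2 * (pd1 χ x ^ 2 * F (σ x) ^ 2) +
            2 * (χ x ^ 2 * (pd1 σ x ^ 2 * ψ (σ x) ^ 2)) := by
          rw [a1]; nlinarith [sq_nonneg (pd1 χ x * F (σ x) - χ x * (ψ (σ x) * pd1 σ x))]
        have b2 : pd2 Φ x ^ 2 ≤ 2 * (pd2 χ x ^ 2 * F (σ x) ^ 2) +
            2 * (χ x ^ 2 * (pd2 σ x ^ 2 * ψ (σ x) ^ 2)) := by
          rw [a2]; nlinarith [sq_nonneg (pd2 χ x * F (σ x) - χ x * (ψ (σ x) * pd2 σ x))]
        have c1 : pd1 χ x ^ 2 * F (σ x) ^ 2 ≤ A₁ * S :=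
          mul_le_mul (hA₁' x hx) (hFb _) (sq_nonneg _) hA₁
        have c2 : pd2 χ x ^ 2 * F (σ x) ^ 2 ≤ A₂ * S :=
          mul_le_mul (hA₂' x hx) (hFb _) (sq_nonneg _) hA₂
        have d1 : χ x ^ 2 * (pd1 σ x ^ 2 * ψ (σ x) ^ 2) ≤ A₀ * (B₁ * ψ (σ x) ^ 2) :=
          mul_le_mul (hA₀' x hx) (mul_le_mul_of_nonneg_right (hB₁' x hx) (sq_nonneg _))
            (by positivity) hA₀
        have d2 : χ x ^ 2 * (pd2 σ x ^ 2 * ψ (σ x) ^ 2) ≤ A₀ * (B₂ * ψ (σ x) ^ 2) :=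
          mul_le_mul (hA₀' x hx) (mul_le_mul_of_nonneg_right (hB₂' x hx) (sq_nonneg _))
            (by positivity) hA₀
        rw [hP, hQ]
        nlinarith
      · rw [indicator_of_notMem hx, pd1_eq_zero (fun hh => hx (hΦs hh)),
          pd2_eq_zero (fun hh => hx (hΦs hh))]
        norm_num
    -- the integral of `ψ(σ)²` over `K`
    have hcontψ : Continuous (fun x : ℝ × ℝ => ψ (σ x) ^ 2) := by
      have := hψ.continuous; have := hσ.continuous; fun_prop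
    have hiK : IntegrableOn (fun x : ℝ × ℝ => ψ (σ x) ^ 2) K :=
      hcontψ.continuousOn.integrableOn_compact hK
    have hi2 : Integrable (fun t => ψ t ^ 2) := pb5 hψ.continuous hψc
    have hint : ∫ x in K, ψ (σ x) ^ 2 ≤ C₁ * S := by
      rw [integral_eq_lintegral_of_nonneg_ae (Filter.Eventually.of_forall fun x => sq_nonneg _)
        hcontψ.aestronglyMeasurable]
      rw [hS, integral_eq_lintegral_of_nonneg_ae (Filter.Eventually.of_forall fun x => sq_nonneg _)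
        hi2.aestronglyMeasurable]
      have h1 := hC₁ (fun t => ENNReal.ofReal (ψ t ^ 2))
        ((hψ.continuous.pow 2).measurable.ennreal_ofReal)
      have hfin : ∫⁻ t, ENNReal.ofReal (ψ t ^ 2) ≠ (⊤ : ℝ≥0∞) := by
        have := hi2.lintegral_lt_top
        exact this.ne
      have h2 := ENNReal.toReal_mono (ENNReal.mul_ne_top ENNReal.coe_ne_top hfin) h1
      rw [ENNReal.toReal_mul, ENNReal.coe_toReal] at h2
      exact h2
    have hiC : IntegrableOn (fun _ : ℝ × ℝ => P * S) K := integrableOn_const hKfin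
    have hiQ : IntegrableOn (fun x => Q * ψ (σ x) ^ 2) K := hiK.const_mul Q
    have hiR : IntegrableOn (fun x => P * S + Q * ψ (σ x) ^ 2) K := Integrable.add hiC hiQ
    calc ∫ x, (pd1 Φ x ^ 2 + pd2 Φ x ^ 2)
        ≤ ∫ x, K.indicator (fun x => P * S + Q * ψ (σ x) ^ 2) x := by
          apply integral_mono_of_nonneg
          · exact Filter.Eventually.of_forall fun x => by positivity
          · exact hiR.integrable_indicator hK.measurableSet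
          · exact Filter.Eventually.of_forall hpt
      _ = ∫ x in K, (P * S + Q * ψ (σ x) ^ 2) := integral_indicator hK.measurableSet
      _ = P * S * (volume K).toReal + Q * ∫ x in K, ψ (σ x) ^ 2 := by
          rw [integral_add hiC hiQ, setIntegral_const, integral_const_mul]
          simp only [Measure.real, smul_eq_mul]
          ring
      _ ≤ P * S * (volume K).toReal + Q * (C₁ * S) :=
          add_le_add le_rfl (mul_le_mul_of_nonneg_left hint hQ0)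
      _ = (P * (volume K).toReal + Q * C₁) * S := by ring
      _ ≤ (P * (volume K).toReal + Q * C₁ + 1) * S :=
          mul_le_mul_of_nonneg_right (by linarith) hS0

end Pool.Agent.R552.DP
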