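import Pool.Agent.R552.DP.Ext

set_option autoImplicit false
set_option maxHeartbeats 400000

namespace Pool.Agent.R552.DP

open MeasureTheory Set Topology
open scoped ENNReal NNReal

theorem isTest_pd1 {Φ : ℝ × ℝ → ℝ} (hΦ : ContDiff ℝ 2 Φ) (hc : HasCompactSupport Φ) :
    IsTest (pd1 Φ) := by
  constructor
  · have h12 : (1 : WithTop ℕ∞) + 1 ≤ 2 := by norm_num
    exact (hΦ.fderiv_right h12).clm_apply contDiff_const
  · exact HasCompactSupport.intro hc fun x hx => pd1_eq_zero hx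

theorem isTest_pd2 {Φ : ℝ × ℝ → ℝ} (hΦ : ContDiff ℝ 2 Φ) (hc : HasCompactSupport Φ) :
    IsTest (pd2 Φ) := by
  constructor
  · have h12 : (1 : WithTop ℕ∞) + 1 ≤ 2 := by norm_num
    exact (hΦ.fderiv_right h12).clm_apply contDiff_const
  · exact HasCompactSupport.intro hc fun x hx => pd2_eq_zero hx

theorem pd_comm {Φ : ℝ × ℝ → ℝ} (hΦ : ContDiff ℝ 2 Φ) (x : ℝ × ℝ) :
    pd1 (pd2 Φ) x = pd2 (pd1 Φ) x := by
  have hd : DifferentiableAt ℝ (fderiv ℝ Φ) x :=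
    (hΦ.fderiv_right (m := 1) (by norm_num)).differentiable (by norm_num) x
  have hsymm : IsSymmSndFDerivAt ℝ Φ x := hΦ.contDiffAt.isSymmSndFDerivAt (by simp)
  have e : ∀ v w : ℝ × ℝ, fderiv ℝ (fun y => fderiv ℝ Φ y v) x w = fderiv ℝ (fderiv ℝ Φ) x w v := by
    intro v w
    have := (hd.hasFDerivAt.clm_apply (hasFDerivAt_const v x)).fderiv
    rw [this]
    simp
  have e1 : pd1 (pd2 Φ) x = fderiv ℝ (fderiv ℝ Φ) x (1, 0) (0, 1) := e (0, 1) (1, 0)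
  have e2 : pd2 (pd1 Φ) x = fderiv ℝ (fderiv ℝ Φ) x (0, 1) (1, 0) := e (1, 0) (0, 1)
  rw [e1, e2]
  exact hsymm _ _

/-- Cauchy-Schwarz -/
theorem cs {a b w₁ w₂ : ℝ × ℝ → ℝ} (ha : MemLp a 2 volume) (hb : MemLp b 2 volume)
    (h₁ : MemLp w₁ 2 volume) (h₂ : MemLp w₂ 2 volume) :
    (∫ x, (b x * w₁ x - a x * w₂ x)) ^ 2 ≤
      (∫ x, (a x ^ 2 + b x ^ 2)) * ∫ x, (w₁ x ^ 2 + w₂ x ^ 2) := by
  have i1 : Integrable (fun x => b x * w₁ x) := hb.integrable_mul h₁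
  have i2 : Integrable (fun x => a x * w₂ x) := ha.integrable_mul h₂
  have i3 : Integrable (fun x => a x ^ 2) := ha.integrable_sq
  have i4 : Integrable (fun x => b x ^ 2) := hb.integrable_sq
  have i5 : Integrable (fun x => w₁ x ^ 2) := h₁.integrable_sq
  have i6 : Integrable (fun x => w₂ x ^ 2) := h₂.integrable_sq
  have j1 : Integrable (fun x => a x ^ 2 + b x ^ 2) := i3.add i4
  have j2 : Integrable (fun x => w₁ x ^ 2 + w₂ x ^ 2) := i5.add i6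
  have j3 : Integrable (fun x => b x * w₁ x - a x * w₂ x) := i1.sub i2
  set A := ∫ x, (a x ^ 2 + b x ^ 2) with hA
  set W := ∫ x, (w₁ x ^ 2 + w₂ x ^ 2) with hW
  set I := ∫ x, (b x * w₁ x - a x * w₂ x) with hI
  have key : ∀ l : ℝ, 0 ≤ A * (l * l) + (-2 * I) * l + W := by
    intro l
    have h0 : 0 ≤ ∫ x, ((w₁ x - l * b x) ^ 2 + (w₂ x + l * a x) ^ 2) :=
      integral_nonneg fun x => by positivity
    have e : ∀ x, (w₁ x - l * b x) ^ 2 + (w₂ x + l * a x) ^ 2 =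
        ((l * l) * (a x ^ 2 + b x ^ 2) + (-2 * l) * (b x * w₁ x - a x * w₂ x)) +
          (w₁ x ^ 2 + w₂ x ^ 2) := fun x => by ring
    have k1 : Integrable (fun x => (l * l) * (a x ^ 2 + b x ^ 2)) := j1.const_mul _
    have k2 : Integrable (fun x => (-2 * l) * (b x * w₁ x - a x * w₂ x)) := j3.const_mul _
    have k3 : Integrable (fun x => (l * l) * (a x ^ 2 + b x ^ 2) +
      (-2 * l) * (b x * w₁ x - a x * w₂ x)) := k1.add k2
    simp_rw [e] at h0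
    rw [integral_add k3 j2, integral_add k1 k2, integral_const_mul, integral_const_mul] at h0
    rw [← hA, ← hI, ← hW] at h0
    linarith
  have := discrim_le_zero key
  rw [discrim] at this
  nlinarith

theorem memLp_pd1 {Φ : ℝ × ℝ → ℝ} (h : IsTest Φ) : MemLp Φ 2 volume :=
  h.1.continuous.memLp_of_hasCompactSupport h.2

theorem real_case {γ : ℝ → ℝ × ℝ} {C : ℝ} (hC : 0 < C)
    (hext : ∀ ψ : ℝ → ℝ, ContDiff ℝ 1 ψ → HasCompactSupport ψ → tsupport ψ ⊆ Ioo 0 1 →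
      ∃ Φ : ℝ × ℝ → ℝ, ContDiff ℝ 2 Φ ∧ HasCompactSupport Φ ∧
        (∀ t ∈ Icc (0:ℝ) 1, pd1 Φ (γ t) * (deriv γ t).1 + pd2 Φ (γ t) * (deriv γ t).2 = ψ t) ∧
        ∫ x, (pd1 Φ x ^ 2 + pd2 Φ x ^ 2) ≤ C * ∫ t, ψ t ^ 2)
    {g : ℝ → ℝ} {w₁ w₂ : ℝ × ℝ → ℝ} (hg : MemLp g 2 (volume.restrict (Ioo (0:ℝ) 1)))
    (h₁ : MemLp w₁ 2 volume) (h₂ : MemLp w₂ 2 volume)
    (hrel : ∀ Φ : ℝ × ℝ → ℝ, ContDiff ℝ 2 Φ → HasCompactSupport Φ →
      ∫ t in Ioo (0:ℝ) 1, (pd1 Φ (γ t) * (deriv γ t).1 + pd2 Φ (γ t) * (deriv γ t).2) * g t =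
        - ∫ x, (pd2 Φ x * w₁ x - pd1 Φ x * w₂ x)) :
    ∫ t in Ioo (0:ℝ) 1, g t ^ 2 ≤ C * ∫ x, (w₁ x ^ 2 + w₂ x ^ 2) := by
  set W := ∫ x, (w₁ x ^ 2 + w₂ x ^ 2) with hW
  have hW0 : 0 ≤ W := integral_nonneg fun x => by positivity
  have h := le_of_test hg (Real.sqrt_nonneg (C * W)) ?_
  · rwa [Real.sq_sqrt (by positivity)] at h
  · rintro ψ ⟨hψ1, hψ2, hψ3⟩
    obtain ⟨Φ, hΦ, hΦc, hΦγ, hΦb⟩ := hext ψ (hψ1.of_le (by simp)) hψ2 hψ3
    have e1 : ∫ t in Ioo (0:ℝ) 1, ψ t * g t = - ∫ x, (pd2 Φ x * w₁ x - pd1 Φ x * w₂ x) := by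
      rw [← hrel Φ hΦ hΦc]
      apply setIntegral_congr_fun measurableSet_Ioo
      intro t ht
      simp only
      rw [hΦγ t (Ioo_subset_Icc_self ht)]
    have e2 : ∫ t in Ioo (0:ℝ) 1, ψ t ^ 2 = ∫ t, ψ t ^ 2 := by
      apply setIntegral_eq_integral_of_forall_compl_eq_zero
      intro t ht
      rw [pb4 hψ3 t ht]; norm_num
    rw [e1, abs_neg, e2]
    have h3 := cs (memLp_pd1 (isTest_pd1 hΦ hΦc)) (memLp_pd1 (isTest_pd2 hΦ hΦc)) h₁ h₂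
    rw [← Real.sqrt_mul (by positivity)]
    apply Real.abs_le_sqrt
    calc _ ≤ (∫ x, (pd1 Φ x ^ 2 + pd2 Φ x ^ 2)) * W := h3
      _ ≤ (C * ∫ t, ψ t ^ 2) * W := mul_le_mul_of_nonneg_right hΦb hW0
      _ = _ := by ring

/-- the relation between jump and gradient -/
theorem rel {γ : ℝ → ℝ × ℝ} (h : IsArc γ) {u v₁ v₂ : ℝ × ℝ → ℂ} {g : ℝ → ℂ}
    (hu : IsH1 (arc γ) u v₁ v₂) (hj : IsJump γ u v₁ v₂ g) (P : ℂ →L[ℝ] ℝ)
    (Φ : ℝ × ℝ → ℝ) (hΦ : ContDiff ℝ 2 Φ) (hc : HasCompactSupport Φ) :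
    ∫ t in Ioo (0:ℝ) 1, (pd1 Φ (γ t) * (deriv γ t).1 + pd2 Φ (γ t) * (deriv γ t).2) * P (g t) =
        - ∫ x, (pd2 Φ x * P (v₁ x) - pd1 Φ x * P (v₂ x)) := by
  have t1 := isTest_pd1 hΦ hc
  have t2 := isTest_pd2 hΦ hc
  have G1 := hj.green₁ _ t2
  have G2 := hj.green₂ _ t1
  have e0 : ∫ x, pd1 (pd2 Φ) x • u x = ∫ x, pd2 (pd1 Φ) x • u x := by
    congr 1; ext x; rw [pd_comm hΦ]
  rw [e0] at G1
  -- integrability
  have m1 : Integrable (fun x => pd2 Φ x • v₁ x) :=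
    memLp_one_iff_integrable.1 (hu.mem₁.smul (memLp_pd1 t2))
  have m2 : Integrable (fun x => pd1 Φ x • v₂ x) :=
    memLp_one_iff_integrable.1 (hu.mem₂.smul (memLp_pd1 t1))
  have hdγ : Continuous (deriv γ) := h.contDiff.continuous_deriv (by norm_num)
  have hγc := h.contDiff.continuous
  have c1 : Continuous (fun t => pd1 Φ (γ t) * (- (deriv γ t).1)) := by
    have := t1.1.continuous
    fun_prop
  have c2 : Continuous (fun t => pd2 Φ (γ t) * (deriv γ t).2) := by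
    have := t2.1.continuous
    fun_prop
  have hgi : IntegrableOn g (Icc (0:ℝ) 1) := hj.mem.integrable (by norm_num)
  have n1 : IntegrableOn (fun t => (pd1 Φ (γ t) * (- (deriv γ t).1)) • g t) (Icc (0:ℝ) 1) :=
    hgi.continuousOn_smul c1.continuousOn isCompact_Icc
  have n2 : IntegrableOn (fun t => (pd2 Φ (γ t) * (deriv γ t).2) • g t) (Icc (0:ℝ) 1) :=
    hgi.continuousOn_smul c2.continuousOn isCompact_Icc
  have E : (∫ x, pd2 Φ x • v₁ x) - (∫ x, pd1 Φ x • v₂ x) =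
      (∫ t in Icc (0:ℝ) 1, (pd1 Φ (γ t) * (- (deriv γ t).1)) • g t) -
        (∫ t in Icc (0:ℝ) 1, (pd2 Φ (γ t) * (deriv γ t).2) • g t) := by
    have : (∫ x, pd2 Φ x • v₁ x) - (∫ x, pd1 Φ x • v₂ x) =
      ((∫ x, pd2 (pd1 Φ) x • u x) + (∫ x, pd2 Φ x • v₁ x)) -
        ((∫ x, pd2 (pd1 Φ) x • u x) + (∫ x, pd1 Φ x • v₂ x)) := by ring
    rw [this, G1, G2]
    ring
  have E2 := congrArg P E
  rw [map_sub, map_sub, ← P.integral_comp_comm m1, ← P.integral_comp_comm m2,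
    ← P.integral_comp_comm n1, ← P.integral_comp_comm n2] at E2
  simp only [map_smul, smul_eq_mul] at E2
  have m1' : Integrable (fun x => pd2 Φ x * P (v₁ x)) := by
    have := P.integrable_comp m1; simpa only [map_smul, smul_eq_mul] using this
  have m2' : Integrable (fun x => pd1 Φ x * P (v₂ x)) := by
    have := P.integrable_comp m2; simpa only [map_smul, smul_eq_mul] using this
  have n1' : IntegrableOn (fun t => (pd1 Φ (γ t) * (- (deriv γ t).1)) * P (g t)) (Icc (0:ℝ) 1) := by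
    have := P.integrable_comp n1
    simp only [map_smul, smul_eq_mul] at this
    exact this
  have n2' : IntegrableOn (fun t => (pd2 Φ (γ t) * (deriv γ t).2) * P (g t)) (Icc (0:ℝ) 1) := by
    have := P.integrable_comp n2
    simp only [map_smul, smul_eq_mul] at this
    exact this
  rw [integral_sub m1' m2', E2, ← integral_sub n1' n2', ← integral_neg,
    ← integral_Icc_eq_integral_Ioo]
  apply integral_congr_ae
  refine Filter.Eventually.of_forall fun t => ?_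
  simp only
  ring

theorem key {γ : ℝ → ℝ × ℝ} (h : IsArc γ) : ∃ C : ℝ, 0 < C ∧
    ∀ (u v₁ v₂ : ℝ × ℝ → ℂ) (g : ℝ → ℂ), IsH1 (arc γ) u v₁ v₂ → IsJump γ u v₁ v₂ g →
      ∫ t in Icc (0:ℝ) 1, ‖g t‖ ^ 2 ≤ C * ∫ x, (‖v₁ x‖ ^ 2 + ‖v₂ x‖ ^ 2) := by
  obtain ⟨C, hC, hext⟩ := exists_ext h
  refine ⟨C, hC, fun u v₁ v₂ g hu hj => ?_⟩
  have hgm : MemLp g 2 (volume.restrict (Ioo (0:ℝ) 1)) :=
    hj.mem.mono_measure (Measure.restrict_mono Ioo_subset_Icc_self le_rfl)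
  have mP : ∀ P : ℂ →L[ℝ] ℝ, ∫ t in Ioo (0:ℝ) 1, P (g t) ^ 2 ≤
      C * ∫ x, (P (v₁ x) ^ 2 + P (v₂ x) ^ 2) := fun P =>
    real_case hC hext (P.comp_memLp' hgm) (P.comp_memLp' hu.mem₁) (P.comp_memLp' hu.mem₂)
      (rel h hu hj P)
  have hr := mP Complex.reCLM
  have hi := mP Complex.imCLM
  simp only [Complex.reCLM_apply, Complex.imCLM_apply] at hr hi
  have n : ∀ z : ℂ, ‖z‖ ^ 2 = z.re ^ 2 + z.im ^ 2 := fun z => by
    rw [← Complex.normSq_eq_norm_sq, Complex.normSq_apply]; ring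
  have gr : IntegrableOn (fun t => (g t).re ^ 2) (Ioo (0:ℝ) 1) := by
    have := (Complex.reCLM.comp_memLp' hgm).integrable_sq; simpa [IntegrableOn] using this
  have gi : IntegrableOn (fun t => (g t).im ^ 2) (Ioo (0:ℝ) 1) := by
    have := (Complex.imCLM.comp_memLp' hgm).integrable_sq; simpa [IntegrableOn] using this
  have vi : ∀ {v : ℝ × ℝ → ℂ}, MemLp v 2 volume → Integrable (fun x => (v x).re ^ 2) ∧
      Integrable (fun x => (v x).im ^ 2) := by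
    intro v hv
    constructor
    · have := (Complex.reCLM.comp_memLp' hv).integrable_sq; simpa using this
    · have := (Complex.imCLM.comp_memLp' hv).integrable_sq; simpa using this
  have a1 := (vi hu.mem₁).1; have a2 := (vi hu.mem₁).2
  have b1 := (vi hu.mem₂).1; have b2 := (vi hu.mem₂).2
  rw [integral_Icc_eq_integral_Ioo]
  simp_rw [n]
  rw [integral_add gr gi]
  have e : ∀ x, ((v₁ x).re ^ 2 + (v₁ x).im ^ 2 + ((v₂ x).re ^ 2 + (v₂ x).im ^ 2)) =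
    ((v₁ x).re ^ 2 + (v₂ x).re ^ 2) + ((v₁ x).im ^ 2 + (v₂ x).im ^ 2) := fun x => by ring
  simp_rw [e]
  have c1 : Integrable (fun x => (v₁ x).re ^ 2 + (v₂ x).re ^ 2) := a1.add b1
  have c2 : Integrable (fun x => (v₁ x).im ^ 2 + (v₂ x).im ^ 2) := a2.add b2
  rw [integral_add c1 c2, mul_add]
  exact add_le_add hr hi

theorem form_nonneg {γ : ℝ → ℝ × ℝ} (h : IsArc γ) : ∃ ωs : ℝ, 0 < ωs ∧ ∀ ω ≤ ωs,
    ∀ (u v₁ v₂ : ℝ × ℝ → ℂ) (g : ℝ → ℂ), IsH1 (arc γ) u v₁ v₂ → IsJump γ u v₁ v₂ g →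
      0 ≤ form γ ω v₁ v₂ g := by
  obtain ⟨C, hC, hkey⟩ := key h
  have hdγ : Continuous (deriv γ) := h.contDiff.continuous_deriv (by norm_num)
  have hsp : Continuous (speed γ) := by
    unfold speed; fun_prop
  obtain ⟨B, hB⟩ := isCompact_Icc.bddAbove_image (f := speed γ) (K := Icc (0:ℝ) 1) hsp.continuousOn
  set S := max B 1 with hS
  have hS1 : 1 ≤ S := le_max_right _ _
  have hSB : ∀ t ∈ Icc (0:ℝ) 1, speed γ t ≤ S := fun t ht => (hB ⟨t, ht, rfl⟩).trans (le_max_left _ _)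
  have hsp0 : ∀ t, 0 ≤ speed γ t := fun t => Real.sqrt_nonneg _
  refine ⟨1 / (C * S), by positivity, ?_⟩
  intro ω hω u v₁ v₂ g hu hj
  have hk := hkey u v₁ v₂ g hu hj
  set W := ∫ x, (‖v₁ x‖ ^ 2 + ‖v₂ x‖ ^ 2) with hW
  have hW0 : 0 ≤ W := integral_nonneg fun x => by positivity
  have hJ0 : 0 ≤ ∫ t in Icc (0:ℝ) 1, ‖g t‖ ^ 2 * speed γ t :=
    integral_nonneg fun t => mul_nonneg (sq_nonneg _) (hsp0 t)
  have hgi : IntegrableOn (fun t => ‖g t‖ ^ 2) (Icc (0:ℝ) 1) := hj.mem.norm.integrable_sq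
  have hgs : IntegrableOn (fun t => S * ‖g t‖ ^ 2) (Icc (0:ℝ) 1) := hgi.const_mul S
  have hJ : ∫ t in Icc (0:ℝ) 1, ‖g t‖ ^ 2 * speed γ t ≤ S * ∫ t in Icc (0:ℝ) 1, ‖g t‖ ^ 2 := by
    rw [← integral_const_mul]
    apply integral_mono_of_nonneg
    · exact Filter.Eventually.of_forall fun t => mul_nonneg (sq_nonneg _) (hsp0 t)
    · exact hgs
    · refine (ae_restrict_iff' measurableSet_Icc).2 (Filter.Eventually.of_forall fun t ht => ?_)
      simp only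
      rw [mul_comm]
      exact mul_le_mul_of_nonneg_right (hSB t ht) (sq_nonneg _)
  unfold form
  rw [← hW]
  have h1 : ∫ t in Icc (0:ℝ) 1, ‖g t‖ ^ 2 * speed γ t ≤ (C * S) * W := by
    calc _ ≤ S * ∫ t in Icc (0:ℝ) 1, ‖g t‖ ^ 2 := hJ
      _ ≤ S * (C * W) := by gcongr
      _ = _ := by ring
  by_cases hω0 : ω ≤ 0
  · have : ω * ∫ t in Icc (0:ℝ) 1, ‖g t‖ ^ 2 * speed γ t ≤ 0 := mul_nonpos_of_nonpos_of_nonneg hω0 hJ0
    linarith
  · push Not at hω0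
    have h2 : ω * ∫ t in Icc (0:ℝ) 1, ‖g t‖ ^ 2 * speed γ t ≤ W := by
      calc _ ≤ ω * ((C * S) * W) := mul_le_mul_of_nonneg_left h1 hω0.le
        _ ≤ 1 / (C * S) * ((C * S) * W) := mul_le_mul_of_nonneg_right hω (by positivity)
        _ = W := by field_simp
    linarith

end Pool.Agent.R552.DP
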