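import Pool.Agent.R552.DP.Defs

set_option autoImplicit false
set_option maxHeartbeats 400000

namespace Pool.Agent.R552.DP

open MeasureTheory Set Topology Manifold
open scoped ContDiff

/-- local left inverse of `γ` -/
theorem local_left_inverse {γ : ℝ → ℝ × ℝ} (h : IsArc γ) (t₀ : ℝ) (ht₀ : t₀ ∈ Icc (0:ℝ) 1) :
    ∃ U ∈ 𝓝 (γ t₀), ∃ g : ℝ × ℝ → ℝ, ContDiffOn ℝ 2 g U ∧
      ∀ y ∈ U, ∀ t ∈ Icc (0:ℝ) 1, γ t = y → g y = t := by
  -- the linear functional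
  set d := deriv γ t₀ with hd
  have hd0 : d ≠ 0 := h.regular t₀ ht₀
  let ℓ : ℝ × ℝ → ℝ := fun y => d.1 * y.1 + d.2 * y.2
  have hℓ : ContDiff ℝ 2 ℓ := by fun_prop
  have hγ := h.contDiff
  let f : ℝ → ℝ := fun t => ℓ (γ t)
  have hf : ContDiff ℝ 2 f := hℓ.comp hγ
  have hγd : HasDerivAt γ d t₀ := by
    rw [hd]; exact (hγ.differentiable (by norm_num) t₀).hasDerivAt
  have hfd : HasDerivAt f (d.1 * d.1 + d.2 * d.2) t₀ := by
    have h1 : HasDerivAt (fun t => (γ t).1) d.1 t₀ := hγd.fst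
    have h2 : HasDerivAt (fun t => (γ t).2) d.2 t₀ := hγd.snd
    exact (h1.const_mul d.1).add (h2.const_mul d.2)
  have hne : d.1 * d.1 + d.2 * d.2 ≠ 0 := by
    intro h0
    apply hd0
    have h1 : d.1 = 0 := by nlinarith [mul_self_nonneg d.1, mul_self_nonneg d.2]
    have h2 : d.2 = 0 := by nlinarith [mul_self_nonneg d.1, mul_self_nonneg d.2]
    exact Prod.ext h1 h2
  let e : ℝ ≃L[ℝ] ℝ := ContinuousLinearEquiv.unitsEquivAut ℝ (Units.mk0 _ hne)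
  have hfe : HasFDerivAt f (e : ℝ →L[ℝ] ℝ) t₀ := by
    have he : (e : ℝ →L[ℝ] ℝ) = ContinuousLinearMap.toSpanSingleton ℝ (d.1 * d.1 + d.2 * d.2) :=
      ContinuousLinearMap.ext fun x => by simp [e]
    rw [he]
    exact hfd.hasFDerivAt
  have hfc : ContDiffAt ℝ 2 f t₀ := hf.contDiffAt
  let k := hfc.localInverse hfe (by norm_num)
  have hk : ContDiffAt ℝ 2 k (f t₀) := hfc.to_localInverse hfe (by norm_num)
  have hkl : ∀ᶠ t in 𝓝 t₀, k (f t) = t :=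
    (hfc.hasStrictFDerivAt' hfe (by norm_num)).eventually_left_inverse
  -- open set where `k ∘ f = id`
  obtain ⟨A, hA, hAo, htA⟩ := eventually_nhds_iff.1 hkl
  obtain ⟨W, hW, hkW⟩ := hk.contDiffOn (m := 2) le_rfl (by simp)
  -- compact rest
  have hcomp : IsCompact (γ '' (Icc 0 1 \ A)) :=
    (isCompact_Icc.diff hAo).image hγ.continuous
  have hnot : γ t₀ ∉ γ '' (Icc 0 1 \ A) := by
    rintro ⟨t, ht, hte⟩
    have := h.injOn ht.1 ht₀ hte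
    subst this
    exact ht.2 htA
  refine ⟨(γ '' (Icc 0 1 \ A))ᶜ ∩ ℓ ⁻¹' W, ?_, fun y => k (ℓ y), ?_, ?_⟩
  · apply Filter.inter_mem (hcomp.isClosed.isOpen_compl.mem_nhds hnot)
    apply hℓ.continuous.continuousAt.preimage_mem_nhds
    simpa [f] using hW
  · have hk2 : ContDiffOn ℝ 2 k W := by simpa using hkW
    exact hk2.comp (hℓ.contDiffOn) (fun y hy => hy.2)
  · rintro y ⟨hy, -⟩ t ht rfl
    have htA' : t ∈ A := by
      by_contra hcon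
      exact hy ⟨t, ⟨ht, hcon⟩, rfl⟩
    exact hA t htA'

/-- global `C²` left inverse of `γ` -/
theorem exists_sigma {γ : ℝ → ℝ × ℝ} (h : IsArc γ) :
    ∃ σ : ℝ × ℝ → ℝ, ContDiff ℝ 2 σ ∧ ∀ t ∈ Icc (0:ℝ) 1, σ (γ t) = t := by
  have hcl : IsClosed (arc γ) := (isCompact_Icc.image h.contDiff.continuous).isClosed
  let T : ℝ × ℝ → Set ℝ := fun y => {s | ∀ t ∈ Icc (0:ℝ) 1, γ t = y → s = t}
  have hT : ∀ y, Convex ℝ (T y) := by
    intro y
    have : T y = ⋂ t ∈ {t | t ∈ Icc (0:ℝ) 1 ∧ γ t = y}, {t} := by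
      ext s; simp only [T, mem_setOf_eq, mem_iInter, mem_singleton_iff, and_imp]
    rw [this]
    exact convex_iInter fun t => convex_iInter fun _ => convex_singleton t
  have hloc : ∀ x : ℝ × ℝ, ∃ U ∈ 𝓝 x, ∃ g : ℝ × ℝ → ℝ,
      ContMDiffOn 𝓘(ℝ, ℝ × ℝ) 𝓘(ℝ, ℝ) 2 g U ∧ ∀ y ∈ U, g y ∈ T y := by
    intro x
    by_cases hx : x ∈ arc γ
    · obtain ⟨t₀, ht₀, rfl⟩ := hx
      obtain ⟨U, hU, g, hg, hg2⟩ := local_left_inverse h t₀ ht₀
      exact ⟨U, hU, g, hg.contMDiffOn, fun y hy t ht hty => hg2 y hy t ht hty⟩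
    · refine ⟨(arc γ)ᶜ, hcl.isOpen_compl.mem_nhds hx, fun _ => 0, contMDiffOn_const, ?_⟩
      intro y hy t ht hty
      exact absurd ⟨t, ht, hty⟩ hy
  obtain ⟨g, hg⟩ := exists_contMDiffMap_forall_mem_convex_of_local (n := 2)
    𝓘(ℝ, ℝ × ℝ) hT hloc
  exact ⟨g, g.contMDiff.contDiff, fun t ht => hg (γ t) t ht rfl⟩

end Pool.Agent.R552.DP
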